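import Pool.Agent.N483.KM.Stm
import Pool.Agent.R755.KF.All

/-!
# The main estimate for small angles, error linear in `δ`

Adapted from `Pool/Agent/R755/KF/T4W.lean`.
-/

set_option autoImplicit false

namespace Pool.Agent.N523.KM

open MeasureTheory Set Filter Topology
open scoped ENNReal InnerProductSpace
open Pool.Agent.H888R2.KT (gs gc)
open Pool.Agent.R754.KG (E un sl Rv)
open Pool.Agent.R755.KF
open Pool.Agent.N483.KM (S_VARL S_CLL)

open T4aux in
theorem t_CLL (h4 : S_VARL) : S_CLL := by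
  have h1 : S_REP := rep
  have h2 : S_ZN := zn_ok
  have h3 : S_OM := omR
  have h5 : S_GRD := grdR
  have h6 : S_STW := stR
  obtain ⟨c0, hc0, h4⟩ := h4
  refine ⟨6 * c0 + 1, by positivity, ?_⟩
  intro k h A δ s B D η νa νb hA hδ0 hs hAh hsh hD hB hη pa pb hm hpl hQ
  have hh : 0 < h := by linarith
  obtain ⟨⟨C, hC⟩, hlt, hsin, hcos, hder⟩ := h3 k h B νa νb hh hB pa.pb pb.pb
  have hEa := ey_Ef h1 h2 hh hB pa.pb
  have hEb := ey_Ef h1 h2 hh hB pb.pb
  have hE := e2_Ef hEa hEb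
  have hdiff : ∀ g : E k → ℝ, BC g → ey h νb g - ey h νa g =
    2 * e2 h νa νb (fun y => g y * Real.sin (om h νa νb y)) := fun g hg =>
      diff_eq h1 h2 h3 hh hB pa.pb pb.pb hg
  have hgrd := h5 k h B η νa νb hh hB pa.pb pb.pb hpl
  have hst := h6 k h A δ s B D νa νb hA hδ0 hs hAh hD hB pa pb hm
  set o := om h νa νb with ho
  set e := e2 h νa νb with he
  have bo : BC o := ⟨hC.c1.continuous, C, hC.bd⟩
  have bs : BC (fun y => Real.sin (o y)) :=
    ⟨Real.continuous_sin.comp bo.cont, 1, fun y => Real.abs_sin_le_one _⟩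
  have bc : BC (fun y => Real.cos (o y)) :=
    ⟨Real.continuous_cos.comp bo.cont, 1, fun y => Real.abs_cos_le_one _⟩
  have cd : Continuous (fderiv ℝ o) := hC.c1.continuous_fderiv (by norm_num)
  have bn : BC (fun y => ‖fderiv ℝ o y‖) :=
    ⟨cd.norm, C, fun y => by rw [abs_norm]; exact hC.gd y⟩
  have bd : ∀ v : E k, BC (fun y => fderiv ℝ o y v) := fun v =>
    ⟨cd.clm_apply continuous_const, C * ‖v‖, fun y => by
      rw [← Real.norm_eq_abs]
      exact (ContinuousLinearMap.le_opNorm _ _).trans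
        (mul_le_mul_of_nonneg_right (hC.gd y) (norm_nonneg _))⟩
  set Q := e (fun y => o y ^ 2) with hQd
  set G := e (fun y => ‖fderiv ℝ o y‖ ^ 2) with hGd
  have hQ0 : 0 ≤ Q := hE.nonneg bo.sq (fun y => sq_nonneg _)
  have hG0 : 0 ≤ G := hE.nonneg bn.sq (fun y => sq_nonneg _)
  -- the norm of partial derivatives
  have hdv : ∀ v : E k, Real.sqrt (e fun y => (fderiv ℝ o y v) ^ 2) ≤ Real.sqrt G * ‖v‖ := by
    intro v
    rw [Real.sqrt_le_left (by positivity), mul_pow, Real.sq_sqrt hG0]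
    have := hE.mono (fun y => (fderiv ℝ o y v) ^ 2) (fun y => ‖v‖ ^ 2 * ‖fderiv ℝ o y‖ ^ 2)
      (bd v).sq (bn.sq.cmul _) (fun y => by
        have h7 := ContinuousLinearMap.le_opNorm (fderiv ℝ o y) v
        rw [← sq_abs, ← mul_pow, mul_comm]
        exact pow_le_pow_left₀ (abs_nonneg _) h7 2)
    rw [hE.smul _ _ bn.sq] at this
    linarith
  -- the constant
  set r := Real.sqrt h with hr
  have hr0 : 0 < r := Real.sqrt_pos.2 hh
  have hrr : r * r = h := Real.mul_self_sqrt hh.le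
  set K := 0.505 * D / h + 0.187 * Real.sqrt G + Real.sqrt δ / (8 * r) with hK
  have hK0 : 0 ≤ K := by positivity
  have hsr : Real.sqrt s ≤ r / 8 := by
    rw [Real.sqrt_le_left (by positivity)]
    nlinarith
  have hAr : Real.sqrt A ≤ r / 8 := by
    rw [Real.sqrt_le_left (by positivity)]
    nlinarith
  have hsq : Real.sqrt s * Real.sqrt (δ + A * G) ≤ h / 64 * Real.sqrt G + r * Real.sqrt δ / 8 := by
    have k1 : Real.sqrt (δ + A * G) ≤ Real.sqrt δ + Real.sqrt (A * G) := by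
      rw [Real.sqrt_le_left (by positivity)]
      have := Real.sq_sqrt hδ0
      have := Real.sq_sqrt (mul_nonneg hA.le hG0)
      have : 0 ≤ Real.sqrt δ * Real.sqrt (A * G) := by positivity
      nlinarith
    have k2 : Real.sqrt (A * G) ≤ r / 8 * Real.sqrt G := by
      rw [Real.sqrt_mul hA.le]
      exact mul_le_mul_of_nonneg_right hAr (Real.sqrt_nonneg _)
    calc Real.sqrt s * Real.sqrt (δ + A * G) ≤ r / 8 * (Real.sqrt δ + r / 8 * Real.sqrt G) :=
          mul_le_mul hsr (k1.trans (by linarith)) (Real.sqrt_nonneg _) (by positivity)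
      _ = (r * r) / 64 * Real.sqrt G + r * Real.sqrt δ / 8 := by ring
      _ = _ := by rw [hrr]
  have hsQ : Real.sqrt Q ≤ 1 / 10 := by
    rw [Real.sqrt_le_left (by norm_num)]
    linarith
  have hmain : ∀ v : E k, |e (fun y => fderiv ℝ o y v)| +
      |e (fun y => fderiv ℝ o y v * Real.sin (o y))| ≤ K * ‖v‖ := by
    intro v
    have a1 : h * |e fun y => Real.cos (o y) * fderiv ℝ o y v| ≤
      (D / 2 * (1 + Q) + Real.sqrt s * Real.sqrt (δ + A * G)) * ‖v‖ := hst v
    have a2 : |e fun y => (1 - Real.cos (o y)) * fderiv ℝ o y v| ≤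
        Real.sqrt (Q / 2) * (Real.sqrt G * ‖v‖) := by
      refine (hE.cs ((BC.const 1).sub bc) (bd v)).trans ?_
      refine mul_le_mul ?_ (hdv v) (Real.sqrt_nonneg _) (Real.sqrt_nonneg _)
      apply Real.sqrt_le_sqrt
      have := hE.mono (fun y => (1 - Real.cos (o y)) ^ 2) (fun y => 1 / 2 * o y ^ 2)
        ((BC.const 1).sub bc).sq (bo.sq.cmul _) (fun y => by
          have := r1 (hlt y)
          linarith)
      rw [hE.smul _ _ bo.sq] at this
      linarith
    have a3 : |e (fun y => fderiv ℝ o y v * Real.sin (o y))| ≤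
        (Real.sqrt G * ‖v‖) * Real.sqrt Q := by
      refine (hE.cs (bd v) bs).trans ?_
      refine mul_le_mul (hdv v) ?_ (Real.sqrt_nonneg _) (by positivity)
      apply Real.sqrt_le_sqrt
      exact hE.mono (fun y => Real.sin (o y) ^ 2) (fun y => o y ^ 2) bs.sq bo.sq (fun y => by
        rw [sq_le_sq]
        exact Real.abs_sin_le_abs)
    have a4 : e (fun y => fderiv ℝ o y v) = (e fun y => Real.cos (o y) * fderiv ℝ o y v) +
        e fun y => (1 - Real.cos (o y)) * fderiv ℝ o y v := by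
      rw [← hE.add _ _ (bc.mul (bd v)) (((BC.const 1).sub bc).mul (bd v))]
      congr 1
      funext y; ring
    have a5 : |e (fun y => fderiv ℝ o y v)| ≤ |e fun y => Real.cos (o y) * fderiv ℝ o y v| +
        |e fun y => (1 - Real.cos (o y)) * fderiv ℝ o y v| := by
      rw [a4]; exact abs_add_le _ _
    -- constants
    have b1 : |e fun y => Real.cos (o y) * fderiv ℝ o y v| ≤
        (0.505 * D / h + 1 / 64 * Real.sqrt G + Real.sqrt δ / (8 * r)) * ‖v‖ := by
      have : |e fun y => Real.cos (o y) * fderiv ℝ o y v| ≤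
          (D / 2 * (1 + Q) + Real.sqrt s * Real.sqrt (δ + A * G)) * ‖v‖ / h := by
        rw [le_div_iff₀ hh, mul_comm]; exact a1
      refine this.trans ?_
      rw [div_le_iff₀ hh]
      have e0 : Real.sqrt δ / (8 * r) * h = r * Real.sqrt δ / 8 := by
        rw [← hrr]; field_simp
      have e1 : (0.505 * D / h + 1 / 64 * Real.sqrt G + Real.sqrt δ / (8 * r)) * ‖v‖ * h =
        (0.505 * D + 1 / 64 * h * Real.sqrt G + Real.sqrt δ / (8 * r) * h) * ‖v‖ := by
        field_simp
      rw [e1, e0]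
      refine mul_le_mul_of_nonneg_right ?_ (norm_nonneg _)
      have := mul_le_mul_of_nonneg_left hQ hD
      linarith
    have b2 : Real.sqrt (Q / 2) ≤ 0.0708 := by
      rw [Real.sqrt_le_left (by norm_num)]
      linarith
    have b3 : Real.sqrt (Q / 2) * (Real.sqrt G * ‖v‖) ≤ 0.0708 * (Real.sqrt G * ‖v‖) :=
      mul_le_mul_of_nonneg_right b2 (by positivity)
    have b4 : (Real.sqrt G * ‖v‖) * Real.sqrt Q ≤ (Real.sqrt G * ‖v‖) * (1 / 10) :=
      mul_le_mul_of_nonneg_left hsQ (by positivity)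
    have b5 : 0 ≤ Real.sqrt G * ‖v‖ := by positivity
    calc _ ≤ (0.505 * D / h + 1 / 64 * Real.sqrt G + Real.sqrt δ / (8 * r)) * ‖v‖ +
          0.0708 * (Real.sqrt G * ‖v‖) + (Real.sqrt G * ‖v‖) * (1 / 10) := by linarith
      _ ≤ K * ‖v‖ := by rw [hK]; nlinarith
  -- each of the two measures
  have hea : ∀ g : E k → ℝ, BC g → ey h νa g = e g - e (fun y => g y * Real.sin (o y)) := by
    intro g hg
    have := hdiff g hg
    have e1 : e g = (ey h νa g + ey h νb g) / 2 := rfl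
    linarith
  have heb : ∀ g : E k → ℝ, BC g → ey h νb g = e g + e (fun y => g y * Real.sin (o y)) := by
    intro g hg
    have := hdiff g hg
    have e1 : e g = (ey h νa g + ey h νb g) / 2 := rfl
    linarith
  -- the mean of the angle
  have hs0 : e (fun y => Real.sin (o y)) = 0 := by
    have := hdiff (fun _ => 1) (BC.const 1)
    rw [hEa.one, hEb.one] at this
    simp only [one_mul] at this
    linarith
  have hm1 : |e o| ≤ 8 / 10 * Q := by
    have c1 : e o = e (fun y => o y - Real.sin (o y)) := by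
      rw [hE.sub bo bs, hs0, sub_zero]
    rw [c1, ← hE.smul _ _ bo.sq]
    exact hE.abs_le (bo.sub bs) (bo.sq.cmul _) (fun y => r2 (hlt y))
  have hm2 : |e (fun y => o y * Real.sin (o y))| ≤ Q :=
    hE.abs_le (bo.mul bs) bo.sq (fun y => r3 _)
  have hQQ : Q * Q ≤ Q * (1 / 100) := mul_le_mul_of_nonneg_left hQ hQ0
  have hma : ey h νa o ^ 2 ≤ 0.033 * Q := by
    have : |ey h νa o| ≤ 1.8 * Q := by
      rw [hea o bo]
      refine (abs_sub _ _).trans ?_
      linarith
    have := pow_le_pow_left₀ (abs_nonneg _) this 2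
    rw [sq_abs] at this
    nlinarith
  have hmb : ey h νb o ^ 2 ≤ 0.033 * Q := by
    have : |ey h νb o| ≤ 1.8 * Q := by
      rw [heb o bo]
      refine (abs_add_le _ _).trans ?_
      linarith
    have := pow_le_pow_left₀ (abs_nonneg _) this 2
    rw [sq_abs] at this
    nlinarith
  have ho2 : ∀ y, |o y| ≤ 2 := fun y => by
    have h7 := hlt y
    have h8 := Real.pi_le_four
    linarith
  have hva := h4 k h A δ s B C K νa o hA hδ0 hAh pa hC ho2 hK0 (fun v => by
    rw [hea _ (bd v)]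
    exact (abs_sub _ _).trans (hmain v))
  have hvb := h4 k h A δ s B C K νb o hA hδ0 hAh pb hC ho2 hK0 (fun v => by
    rw [heb _ (bd v)]
    exact (abs_add_le _ _).trans (hmain v))
  have eQ : Q = (ey h νa (fun y => o y ^ 2) + ey h νb (fun y => o y ^ 2)) / 2 := rfl
  have eG : G = (ey h νa (fun y => ‖fderiv ℝ o y‖ ^ 2) +
    ey h νb (fun y => ‖fderiv ℝ o y‖ ^ 2)) / 2 := rfl
  have hsum : Q - 0.033 * Q ≤ 0.76 * (h * G) + 0.3 * (h * K ^ 2) + c0 * δ := by
    rw [eG]
    have : Q = (ey h νa (fun y => o y ^ 2) + ey h νb (fun y => o y ^ 2)) / 2 := rfl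
    nlinarith
  have hKK : h * K ^ 2 ≤ 0.77 * (D ^ 2 / h) + 0.105 * (h * G) + 3 / 64 * δ := by
    have c1 : K ^ 2 ≤ 3 * (0.505 * D / h) ^ 2 + 3 * (0.187 * Real.sqrt G) ^ 2 +
        3 * (Real.sqrt δ / (8 * r)) ^ 2 := by
      rw [hK]
      nlinarith [sq_nonneg (0.505 * D / h - 0.187 * Real.sqrt G),
        sq_nonneg (0.505 * D / h - Real.sqrt δ / (8 * r)),
        sq_nonneg (0.187 * Real.sqrt G - Real.sqrt δ / (8 * r))]
    have c2 : (0.187 * Real.sqrt G) ^ 2 = 0.187 ^ 2 * G := by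
      rw [mul_pow, Real.sq_sqrt hG0]
    have c5 : (Real.sqrt δ / (8 * r)) ^ 2 = δ / (64 * h) := by
      rw [div_pow, mul_pow, Real.sq_sqrt hδ0, Real.sq_sqrt hh.le]
      norm_num
    rw [c2, c5] at c1
    have c3 := mul_le_mul_of_nonneg_left c1 hh.le
    have c4 : h * (3 * (0.505 * D / h) ^ 2 + 3 * (0.187 ^ 2 * G) + 3 * (δ / (64 * h))) =
        0.765075 * (D ^ 2 / h) + 0.104907 * (h * G) + 3 / 64 * δ := by
      field_simp
      ring
    rw [c4] at c3
    have : 0 ≤ D ^ 2 / h := by positivity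
    have : 0 ≤ h * G := by positivity
    linarith
  have hDh : 0 ≤ D ^ 2 / h := by positivity
  have hfin : 5 * D ^ 2 / h = 5 * (D ^ 2 / h) := by ring
  rw [hfin]
  have hg' : h * G ≤ 2 * η + Q := hgrd
  have hcd : 0 ≤ c0 * δ := by positivity
  have e9 : (6 * c0 + 1) * δ = 6 * (c0 * δ) + δ := by ring
  rw [e9]
  linarith

end Pool.Agent.N523.KM
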